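import Mathlib
import Pool.Agent.H391R2.HitMulti

/-!
# Hilbert irreducibility over number fields, integer parameter (helper716)

Root form of Hilbert's irreducibility theorem over a number field `K` with a rational integer as
parameter, deduced from the case of `ℚ`: the coordinates of the roots `x ∈ K` of `f (t, x) = 0` are
integral over `ℚ[t]`.
-/

set_option autoImplicit false

namespace Pool.Agent.TH716.RK

open Polynomial Pool.Agent.H391R2

/-- transitivity of integrality -/
lemma int_trans {R A B : Type} [CommRing R] [CommRing A] [CommRing B] (i : R →+* A) (j : A →+* B)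
    (hi : ∀ a, i.IsIntegralElem a) {y : B} (hy : j.IsIntegralElem y) :
    (j.comp i).IsIntegralElem y := by
  let _ := i.toAlgebra
  let _ := j.toAlgebra
  let _ := (j.comp i).toAlgebra
  have : IsScalarTower R A B := IsScalarTower.of_algebraMap_eq fun _ => rfl
  have : Algebra.IsIntegral R A := ⟨fun a => hi a⟩
  exact isIntegral_trans (R := R) (A := A) (B := B) y hy

/-- polynomials over an algebraic extension are integral over the polynomials -/
lemma map_integral {K : Type} [Field K] [Algebra ℚ K] [Algebra.IsIntegral ℚ K] (q : K[X]) :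
    (mapRingHom (algebraMap ℚ K)).IsIntegralElem q := by
  have hX : (mapRingHom (algebraMap ℚ K)).IsIntegralElem (X : K[X]) := by
    refine ⟨X - C X, monic_X_sub_C _, ?_⟩
    simp
  have hC : ∀ a : K, (mapRingHom (algebraMap ℚ K)).IsIntegralElem (C a : K[X]) := by
    intro a
    refine ⟨(minpoly ℚ a).map C, (minpoly.monic (Algebra.IsIntegral.isIntegral a)).map _, ?_⟩
    rw [eval₂_map]
    have h1 : (mapRingHom (algebraMap ℚ K)).comp C = (C : K →+* K[X]).comp (algebraMap ℚ K) := by
      ext x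
      simp
    rw [h1, ← hom_eval₂]
    have h2 : eval₂ (algebraMap ℚ K) a (minpoly ℚ a) = 0 := minpoly.aeval ℚ a
    rw [h2, map_zero]
  induction q using Polynomial.induction_on' with
  | add p q hp hq => exact hp.add _ hq
  | monomial n a =>
    rw [← C_mul_X_pow_eq_monomial]
    refine (hC a).mul _ ?_
    induction n with
    | zero =>
      rw [pow_zero]
      have := hC 1
      rwa [C_1] at this
    | succ n ih =>
      rw [pow_succ]
      exact ih.mul _ hX

section

variable {K : Type} [Field K] [NumberField K]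

/-- evaluation of functions -/
lemma ev_eval₂ {R P : Type} [CommRing R] (φ : R →+* (P → ℂ)) (y : P → ℂ) (G : R[X]) (p : P) :
    eval₂ φ y G p = eval₂ ((Pi.evalRingHom (fun _ : P => ℂ) p).comp φ) (y p) G :=
  hom_eval₂ G φ (Pi.evalRingHom (fun _ : P => ℂ) p) y

/-- the trace coordinates of roots are integral -/
theorem exists_coord (f : K[X][X]) (hf : f.Monic) (c : K) : ∃ G : ℚ[X][X], G.Monic ∧
    ∀ (t : ℤ) (x : K), f.evalEval (t : K) x = 0 →
      G.evalEval (t : ℚ) (Algebra.trace ℚ K (c * x)) = 0 := by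
  classical
  let P : Type := {p : ℤ × K // f.evalEval (p.1 : K) p.2 = 0}
  let φ : ℚ[X] →+* (P → ℂ) := RingHom.pi fun p : P => (algebraMap ℚ ℂ).comp
    (evalRingHom ((p.1.1 : ℤ) : ℚ))
  have hφ : ∀ q p, φ q p = (algebraMap ℚ ℂ) (q.eval ((p.1.1 : ℤ) : ℚ)) := fun q p => rfl
  have hY : ∀ σ : K →ₐ[ℚ] ℂ, φ.IsIntegralElem (fun p : P => σ p.1.2) := by
    intro σ
    let ψ : K[X] →+* (P → ℂ) := RingHom.pi fun p : P => (σ : K →+* ℂ).comp
      (evalRingHom ((p.1.1 : ℤ) : K))
    have h1 : φ = ψ.comp (mapRingHom (algebraMap ℚ K)) := by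
      apply RingHom.ext
      intro q
      funext p
      change (algebraMap ℚ ℂ) (q.eval ((p.1.1 : ℤ) : ℚ)) =
        σ ((q.map (algebraMap ℚ K)).eval ((p.1.1 : ℤ) : K))
      have h0 : ((p.1.1 : ℤ) : K) = algebraMap ℚ K ((p.1.1 : ℤ) : ℚ) := by simp
      rw [h0, eval_map, eval₂_at_apply, AlgHom.commutes]
    rw [h1]
    refine int_trans _ _ map_integral ⟨f, hf, ?_⟩
    funext p
    rw [ev_eval₂]
    have h3 : (Pi.evalRingHom (fun _ : P => ℂ) p).comp ψ = (σ : K →+* ℂ).comp
      (evalRingHom ((p.1.1 : ℤ) : K)) := rfl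
    rw [h3]
    have h4 : eval₂ ((σ : K →+* ℂ).comp (evalRingHom ((p.1.1 : ℤ) : K))) (σ p.1.2) f =
        σ (f.evalEval (p.1.1 : K) p.1.2) := by
      rw [← eval₂_evalRingHom]
      exact (hom_eval₂ f (evalRingHom ((p.1.1 : ℤ) : K)) (σ : K →+* ℂ) p.1.2).symm
    rw [h4, p.2, map_zero]
    rfl
  have hc : ∀ σ : K →ₐ[ℚ] ℂ, φ.IsIntegralElem (fun _ : P => σ c) := by
    intro σ
    refine ⟨(minpoly ℚ c).map C, (minpoly.monic (Algebra.IsIntegral.isIntegral c)).map _, ?_⟩
    rw [eval₂_map]
    funext p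
    rw [ev_eval₂]
    have h3 : (Pi.evalRingHom (fun _ : P => ℂ) p).comp (φ.comp C) = algebraMap ℚ ℂ :=
      Subsingleton.elim _ _
    rw [h3]
    change aeval (σ c) (minpoly ℚ c) = 0
    rw [aeval_algHom_apply, minpoly.aeval, map_zero]
  have hs : φ.IsIntegralElem (fun p : P => ∑ σ : K →ₐ[ℚ] ℂ, σ c * σ p.1.2) := by
    let _ := φ.toAlgebra
    have : (fun p : P => ∑ σ : K →ₐ[ℚ] ℂ, σ c * σ p.1.2) =
        ∑ σ : K →ₐ[ℚ] ℂ, (fun _ : P => σ c) * (fun p : P => σ p.1.2) := by
      funext p
      simp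
    rw [this]
    exact IsIntegral.sum _ fun σ _ => (hc σ).mul _ (hY σ)
  obtain ⟨G, hG, hG0⟩ := hs
  refine ⟨G, hG, fun t x hx => ?_⟩
  have h5 := congrFun hG0 (⟨(t, x), hx⟩ : P)
  rw [ev_eval₂] at h5
  have h7 : (Pi.evalRingHom (fun _ : P => ℂ) ⟨(t, x), hx⟩).comp φ =
      (algebraMap ℚ ℂ).comp (evalRingHom (t : ℚ)) := rfl
  have h8 : ∑ σ : K →ₐ[ℚ] ℂ, σ c * σ x = algebraMap ℚ ℂ (Algebra.trace ℚ K (c * x)) := by
    rw [trace_eq_sum_embeddings ℂ]
    exact Finset.sum_congr rfl fun σ _ => (map_mul σ c x).symm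
  rw [h7, h8, ← hom_eval₂] at h5
  have h9 := (map_eq_zero (algebraMap ℚ ℂ)).1 h5
  rwa [eval₂_evalRingHom] at h9

/-- **Hilbert irreducibility** over a number field, root form, integer parameter -/
theorem hp_nf (K : Type) [Field K] [NumberField K] : HP K := by
  classical
  intro f hf hroot B
  by_contra hcon
  push Not at hcon
  let b := Module.finBasis ℚ K
  let n := Module.finrank ℚ K
  have hnd := traceForm_nondegenerate ℚ K
  let d := LinearMap.BilinForm.dualBasis (Algebra.traceForm ℚ K) hnd b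
  have hd : ∀ x : K, ∑ i, algebraMap ℚ K (Algebra.trace ℚ K (d i * x)) * b i = x := by
    intro x
    have h1 : ∀ i, Algebra.trace ℚ K (d i * x) = b.repr x i := by
      intro i
      have h2 : Algebra.trace ℚ K (d i * x) = Algebra.traceForm ℚ K (d i) x := rfl
      rw [h2]
      conv_lhs => rw [← b.sum_repr x]
      rw [map_sum]
      simp only [map_smul, smul_eq_mul]
      rw [Finset.sum_eq_single i]
      · rw [LinearMap.BilinForm.apply_dualBasis_left, if_pos rfl, mul_one]
      · intro j _ hj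
        rw [LinearMap.BilinForm.apply_dualBasis_left, if_neg hj, mul_zero]
      · intro h
        exact (h (Finset.mem_univ _)).elim
    simp only [h1]
    conv_rhs => rw [← b.sum_repr x]
    refine Finset.sum_congr rfl fun i _ => ?_
    rw [Algebra.smul_def]
  choose G hGm hG using fun i => exists_coord f hf (d i)
  choose H hH1 hH2 hH3 using fun i => exists_prod_multiset_X_sub_C_mul (G i)
  -- the product of the parts without roots
  have hHm : ∀ i, (H i).Monic := by
    intro i
    have h1 : (Multiset.map (fun a => X - C a) (G i).roots).prod.Monic :=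
      monic_multiset_prod_of_monic _ _ fun a _ => monic_X_sub_C a
    exact h1.of_mul_monic_left (by rw [hH1 i]; exact hGm i)
  have hm : (∏ i, H i).Monic := monic_prod_of_monic _ _ fun i _ => hHm i
  have hr : ∀ g : ℚ[X], (∏ i, H i).eval g ≠ 0 := by
    intro g
    rw [eval_prod]
    refine Finset.prod_ne_zero_iff.2 fun i _ h => ?_
    have : g ∈ (H i).roots := (mem_roots (hHm i).ne_zero).2 h
    rw [hH3 i] at this
    simp at this
  -- the candidates
  let cand : (∀ i : Fin n, {g // g ∈ (G i).roots.toFinset}) → K[X] := fun j =>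
    ∑ i, (j i).1.map (algebraMap ℚ K) * C (b i)
  have hfin : {t : ℤ | ∃ j, (f.eval (cand j)).eval (t : K) = 0}.Finite := by
    rw [Set.ofPred_exists]
    refine Set.finite_iUnion fun j => ?_
    have h1 : {a : K | (f.eval (cand j)).IsRoot a}.Finite := by
      have := (f.eval (cand j)).roots.toFinset.finite_toSet
      refine this.subset fun a ha => ?_
      rw [Finset.mem_coe, Multiset.mem_toFinset]
      exact (mem_roots (hroot _)).2 ha
    refine (h1.preimage (f := fun t : ℤ => (t : K)) (Set.injOn_of_injective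
      Int.cast_injective)).subset fun t ht => ?_
    exact ht
  obtain ⟨B', hB'⟩ := hfin.bddAbove
  obtain ⟨t, ht, ht'⟩ := hp_rat (∏ i, H i) hm hr (max B B')
  obtain ⟨x, hx⟩ := hcon t (lt_of_le_of_lt (le_max_left _ _) ht)
  have hex : ∀ i : Fin n, ∃ g : {g // g ∈ (G i).roots.toFinset},
      Algebra.trace ℚ K (d i * x) = g.1.eval (t : ℚ) := by
    intro i
    have h1 := hG i t x hx
    rw [← hH1 i, evalEval_mul] at h1
    have h2 : (H i).evalEval (t : ℚ) (Algebra.trace ℚ K (d i * x)) ≠ 0 := by
      intro h0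
      apply ht' (Algebra.trace ℚ K (d i * x))
      rw [evalEval_prod]
      exact Finset.prod_eq_zero (Finset.mem_univ i) h0
    have h3 := (mul_eq_zero.1 h1).resolve_right h2
    rw [← coe_evalEvalRingHom, map_multiset_prod, Multiset.map_map] at h3
    rw [Multiset.prod_eq_zero_iff, Multiset.mem_map] at h3
    obtain ⟨g, hg, hg'⟩ := h3
    refine ⟨⟨g, Multiset.mem_toFinset.2 hg⟩, ?_⟩
    simp only [Function.comp_apply, coe_evalEvalRingHom] at hg'
    have h4 : evalEval (t : ℚ) (Algebra.trace ℚ K (d i * x)) (X - C g) =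
        Algebra.trace ℚ K (d i * x) - g.eval (t : ℚ) := by
      simp [evalEval]
    rw [h4] at hg'
    exact sub_eq_zero.1 hg'
  choose j hj using hex
  have hxe : x = (cand j).eval (t : K) := by
    conv_lhs => rw [← hd x]
    simp only [cand, eval_finsetSum, eval_mul, eval_C]
    refine Finset.sum_congr rfl fun i _ => ?_
    rw [hj i]
    congr 1
    have : (t : K) = algebraMap ℚ K (t : ℚ) := by simp
    rw [this, eval_map, eval₂_at_apply]
  have hmem : t ∈ {t : ℤ | ∃ j, (f.eval (cand j)).eval (t : K) = 0} := by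
    refine ⟨j, ?_⟩
    rw [hxe] at hx
    rw [← hx, evalEval]
    have : f.eval (cand j) = f.eval₂ (RingHom.id _) (cand j) := rfl
    rw [← coe_evalRingHom (R := K)]
    rw [← eval₂_at_apply, ← eval₂_at_apply]
    simp
  have := hB' hmem
  have h10 := lt_of_le_of_lt (le_max_right B B') ht
  omega

end

end Pool.Agent.TH716.RK
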